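import Pool.Agent.Lib.MP_829c31_lc.Datum
import Pool.Agent.Lib.MP_829c31_lc.Order

set_option autoImplicit false

namespace Pool.Agent.Results.MP_829c31_lc.NotWellOrdered

universe u v w

/-- `α ≤ β`: there is an order-preserving injection from `α` into `β`. -/
def Le (α : Type u) (β : Type v) [LinearOrder α] [LinearOrder β] : Prop :=
  ∃ f : α → β, ∀ x y : α, x < y → f x < f y

/-- `α < β`: `α ≤ β` and not `β ≤ α`. -/
def Lt (α : Type u) (β : Type v) [LinearOrder α] [LinearOrder β] : Prop :=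
  Le α β ∧ ¬ Le β α

/-- `α` is strictly indecomposable to the right: whenever `α` is isomorphic to an ordered sum
`β + γ` of nonempty linear orders (a copy of `β` followed by a copy of `γ`), `α ≤ γ` and not
`α ≤ β`. -/
def StrictlyRight (α : Type) [LinearOrder α] : Prop :=
  ∀ (β : Type u) (γ : Type v) [LinearOrder β] [LinearOrder γ], Nonempty β → Nonempty γ →
    Nonempty (α ≃o Lex (β ⊕ γ)) → Le α γ ∧ ¬ Le α β

/-- Condition (ii): every linear order strictly below `α` embeds into a proper initial segment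
`{y | y < a}` of `α`. -/
def SegmentCondition (α : Type) [LinearOrder α] : Prop :=
  ∀ (ψ : Type w) [LinearOrder ψ], Lt ψ α → ∃ a : α, Le ψ {y : α // y < a}

/-- There is a set of real numbers whose order type satisfies (i) and (ii) but is not a
well-order. -/
theorem result : ∃ Φ : Set ℝ, StrictlyRight.{u, v} Φ ∧ SegmentCondition.{w} Φ ∧
    ¬ WellFounded (fun x y : Φ => x < y) := by
  obtain ⟨S, hne, hS, hl, hd, hno⟩ := Pool.Agent.Lib.MP_829c31_lc.exists_set
  obtain ⟨h1, h2, h3⟩ := Pool.Agent.Lib.MP_829c31_lc.order_part hne hS hl hd hno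
  refine ⟨Pool.Agent.Lib.MP_829c31_lc.A S, ?_, ?_, fun h => h3 ⟨h⟩⟩
  · intro β γ _ _ hβ hγ ⟨g⟩
    have hlow : IsLowerSet {x : ↥(Pool.Agent.Lib.MP_829c31_lc.A S) |
        ∃ b : β, g x = toLex (Sum.inl b)} := by
      rintro x y hyx ⟨b, hb⟩
      have h4 : g y ≤ toLex (Sum.inl b) := hb ▸ g.monotone hyx
      rcases hgy : ofLex (g y) with c | c
      · exact ⟨c, by rw [← hgy]; rfl⟩
      · exfalso
        have h5 : g y = toLex (Sum.inr c) := by rw [← hgy]; rfl
        rw [h5] at h4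
        exact Sum.Lex.not_inr_le_inl h4
    have hne' : {x : ↥(Pool.Agent.Lib.MP_829c31_lc.A S) |
        ∃ b : β, g x = toLex (Sum.inl b)} ≠ Set.univ := by
      intro h
      obtain ⟨c⟩ := hγ
      have h4 : g.symm (toLex (Sum.inr c)) ∈ {x : ↥(Pool.Agent.Lib.MP_829c31_lc.A S) |
        ∃ b : β, g x = toLex (Sum.inl b)} := by rw [h]; trivial
      obtain ⟨b, hb⟩ := h4
      rw [OrderIso.apply_symm_apply] at hb
      have h5 := toLex.injective hb
      cases h5
    obtain ⟨⟨e⟩, hem⟩ := h1 _ hlow hne'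
    constructor
    · have hc : ∀ x : ↥(Pool.Agent.Lib.MP_829c31_lc.A S),
          ∃ c : γ, g (e x).1 = toLex (Sum.inr c) := by
        intro x
        have h6 := (e x).2
        rcases hgy : ofLex (g (e x).1) with b | c
        · exact absurd ⟨b, by rw [← hgy]; rfl⟩ h6
        · exact ⟨c, by rw [← hgy]; rfl⟩
      choose f hf using hc
      refine ⟨f, fun x y hxy => ?_⟩
      have h7 : g (e x).1 < g (e y).1 := g.strictMono (e.strictMono hxy)
      rw [hf, hf] at h7
      exact Sum.Lex.inr_lt_inr_iff.1 h7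
    · rintro ⟨f, hf⟩
      refine hem.false (OrderEmbedding.ofStrictMono
        (fun x => ⟨g.symm (toLex (Sum.inl (f x))), ⟨f x, by simp⟩⟩) ?_)
      intro x y hxy
      have h8 : g.symm (toLex (Sum.inl (f x))) < g.symm (toLex (Sum.inl (f y))) :=
        g.symm.strictMono (Sum.Lex.inl_lt_inl_iff.2 (hf x y hxy))
      exact h8
  · rintro ψ _ ⟨⟨f, hf⟩, hnot⟩
    have hfm : StrictMono f := fun x y h => hf x y h
    have e1 : IsEmpty (↥(Pool.Agent.Lib.MP_829c31_lc.A S) ↪o ↥(Set.range f)) := by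
      refine ⟨fun e => hnot ?_⟩
      have hc : ∀ x, ∃ z : ψ, f z = (e x).1 := fun x => (e x).2
      choose k hk using hc
      refine ⟨k, fun x y hxy => ?_⟩
      have h9 : (e x).1 < (e y).1 := e.strictMono hxy
      rw [← hk, ← hk] at h9
      exact hfm.lt_iff_lt.1 h9
    obtain ⟨L, hL, hLu, ⟨e⟩⟩ := h2 ↥(Set.range f) ⟨OrderEmbedding.subtype _⟩ e1
    obtain ⟨a, ha⟩ := (Set.ne_univ_iff_exists_notMem L).1 hLu
    have hlt : ∀ y ∈ L, y < a := by
      intro y hy
      by_contra h10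
      exact ha (hL (not_lt.1 h10) hy)
    refine ⟨a, fun z => ⟨(e ⟨f z, ⟨z, rfl⟩⟩).1, hlt _ (e _).2⟩, fun x y hxy => ?_⟩
    have h11 : (⟨f x, ⟨x, rfl⟩⟩ : ↥(Set.range f)) < ⟨f y, ⟨y, rfl⟩⟩ := hf x y hxy
    exact e.strictMono h11

end Pool.Agent.Results.MP_829c31_lc.NotWellOrdered
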